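import Pool.Agent.Lib.MP_0a5b83_al.Main

set_option autoImplicit false

open Pool.Agent.Lib.MP_0a5b83_al

/-- The question Q1 of MP_0a5b83_al (first item) is equivalent to its restriction to finite groups
`G` (second item), and both are equivalent to the statement that only the trivial variety and the
variety of all groups are non-regular (third item). Indeed every proper nontrivial variety with
`F_{n+1}` embeddable in `F_n` gives rise to a variety with the same property and a finite group in
it which embeds in no `n`-generated group of it. -/
theorem Pool.Agent.Results.MP_0a5b83_al.NonRegularCriterion.result : List.TFAE [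
    ∀ (W : Set (FreeGroup ℕ)) (n : ℕ), NonRegularAt W n →
      ∀ (G : Type) [Group G] [Countable G], Sat W G → EmbedsInGenerated W n G,
    ∀ (W : Set (FreeGroup ℕ)) (n : ℕ), NonRegularAt W n →
      ∀ (G : Type) [Group G] [Finite G], Sat W G → EmbedsInGenerated W n G,
    ∀ (W : Set (FreeGroup ℕ)) (n : ℕ), NonRegularAt W n →
      (∀ w ∈ W, w = 1) ∨ ∀ (G : Type) [Group G], Sat W G → Subsingleton G] :=
  main_tfae
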